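import Pool.Agent.LE.StmtsH
import Pool.Agent.Helper31_Mob.Weg
import Pool.Agent.Helper11_Mob.Gzb

/-!
# Squad LCH, row AVL: the lower bound of the mean
-/

set_option autoImplicit false

open MeasureTheory ProbabilityTheory Function Filter

open scoped ENNReal BigOperators InnerProductSpace Topology ComplexConjugate

noncomputable section

namespace Pool.Agent.LE.CH.H81

open Pool.Agent.Anderson Pool.Agent.Loc Pool.Agent.Mob Pool.Agent.Helper54.Bal

variable {d : ℕ}

theorem fv_del (V : Site d → ℝ) (n : ℕ) (z : ℂ) :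
    fv V n z (del (0 : Site d)) 0 = gz V (box (0 : Site d) n) z 0 0 := by
  classical
  unfold fv
  rw [Finset.sum_eq_single (0 : Site d)]
  · rw [del_apply, if_pos rfl, mul_one]
  · intro y _ hy
    rw [del_apply, if_neg hy, mul_zero]
  · intro h
    unfold gz
    rw [dif_neg (fun h' => h h'.1), zero_mul]

theorem avl (hAVF : AvfStmt) (hFVG : FvgStmt) : AvlStmt := by
  intro d σ K hd hσ
  obtain ⟨c, hc, h⟩ := hAVF d σ K hd hσ
  have hpi := Real.pi_pos
  -- the bound at one energy
  have key : ∀ η E : ℝ, |E| ≤ K → 0 < η → η ≤ 1 → ENNReal.ofReal c ≤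
      ∫⁻ V, ENNReal.ofReal (η * ‖G V (zz η E) (del (0 : Site d))‖ ^ 2) ∂(PP d (gl σ)) := by
    intro η E hE hη hη1
    have hz : (zz η E).im ≠ 0 := by
      rw [zz_im]
      exact hη.ne'
    have hlim : Tendsto (fun n : ℕ => ∫⁻ V, ENNReal.ofReal
        (-(gz V (box (0 : Site d) n) (zz η E) 0 0).im) ∂(PP d (gl σ))) atTop
        (𝓝 (∫⁻ V, ENNReal.ofReal (η * ‖G V (zz η E) (del (0 : Site d))‖ ^ 2) ∂(PP d (gl σ)))) := by
      refine tendsto_lintegral_of_dominated_convergence (fun _ => ENNReal.ofReal η⁻¹) ?_ ?_ ?_ ?_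
      · intro n
        exact ENNReal.measurable_ofReal.comp
          (Complex.measurable_im.comp (Mob.H31.measurable_gz _ _ 0 0)).neg
      · intro n
        refine Eventually.of_forall fun V => ENNReal.ofReal_le_ofReal ?_
        have h1 := ((Mob.H11.gzb d V (box (0 : Site d) n) 0 0).2.1 (zz η E) hz).2
        rw [zz_im, abs_of_pos hη] at h1
        have h2 := Complex.abs_im_le_norm (gz V (box (0 : Site d) n) (zz η E) 0 0)
        exact (neg_le_abs _).trans (h2.trans h1)
      · rw [lintegral_const, measure_univ, mul_one]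
        exact ENNReal.ofReal_ne_top
      · refine Eventually.of_forall fun V => ?_
        have h1 := (hFVG d V (zz η E) (del 0) hz).2.2 0
        have h2 : Tendsto (fun n : ℕ => ENNReal.ofReal
            (-(gz V (box (0 : Site d) n) (zz η E) 0 0).im)) atTop
            (𝓝 (ENNReal.ofReal (-(-G V (zz η E) (del (0 : Site d)) 0).im))) := by
          refine ENNReal.tendsto_ofReal ?_
          refine Tendsto.neg ?_
          refine (Complex.continuous_im.tendsto _).comp ?_
          refine h1.congr fun n => ?_
          exact fv_del V n _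
        have h3 : -(-G V (zz η E) (del (0 : Site d)) 0).im =
            η * ‖G V (zz η E) (del (0 : Site d))‖ ^ 2 := by
          have h4 := im_G_del (V := V) hz
          rw [zz_im] at h4
          rw [Complex.neg_im, neg_neg, h4]
        rw [h3] at h2
        exact h2
    refine ge_of_tendsto hlim ?_
    filter_upwards [eventually_ge_atTop 1] with n hn
    exact h n η E hn hE hη hη1
  refine ⟨c / Real.pi, by positivity, fun η S hη hη1 hS hSK => ?_⟩
  have hcont : Continuous fun p : (Site d → ℝ) × ℝ => G p.1 (zz η p.2) (del (0 : Site d)) := by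
    have h0 : Continuous fun p : (Site d → ℝ) × ℝ => (p.1, p.2, (del 0 : L2 d)) := by fun_prop
    have h6 := (continuous_G (d := d) hη.ne').comp h0
    exact h6
  have hmeas : Measurable fun p : (Site d → ℝ) × ℝ =>
      ENNReal.ofReal (η / Real.pi * ‖G p.1 (zz η p.2) (del (0 : Site d))‖ ^ 2) :=
    (((hcont.norm.measurable).pow_const 2).const_mul _).ennreal_ofReal
  unfold wt
  rw [lintegral_lintegral_swap hmeas.aemeasurable]
  have h1 : ∀ E ∈ S, ENNReal.ofReal (c / Real.pi) ≤ ∫⁻ V, ENNReal.ofReal
      (η / Real.pi * ‖G V (zz η E) (del (0 : Site d))‖ ^ 2) ∂(PP d (gl σ)) := by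
    intro E hE
    have hEK : |E| ≤ K := abs_le.2 (hSK hE)
    have h2 := key η E hEK hη hη1
    have h3 : ∀ V : Site d → ℝ, ENNReal.ofReal
        (η / Real.pi * ‖G V (zz η E) (del (0 : Site d))‖ ^ 2) =
        ENNReal.ofReal (1 / Real.pi) *
          ENNReal.ofReal (η * ‖G V (zz η E) (del (0 : Site d))‖ ^ 2) := by
      intro V
      rw [← ENNReal.ofReal_mul (by positivity)]
      congr 1
      ring
    have hm : Measurable fun V : Site d → ℝ =>
        ENNReal.ofReal (η * ‖G V (zz η E) (del (0 : Site d))‖ ^ 2) := by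
      have h0 : Continuous fun V : Site d → ℝ => G V (zz η E) (del (0 : Site d)) := by
        have h5 : Continuous fun V : Site d → ℝ => (V, E) := by fun_prop
        have h6 := hcont.comp h5
        exact h6
      exact (((h0.norm.measurable).pow_const 2).const_mul _).ennreal_ofReal
    rw [lintegral_congr h3, lintegral_const_mul _ hm,
      show c / Real.pi = 1 / Real.pi * c by ring, ENNReal.ofReal_mul (by positivity)]
    gcongr
  calc ENNReal.ofReal (c / Real.pi) * volume S
      = ∫⁻ _ in S, ENNReal.ofReal (c / Real.pi) := by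
        rw [setLIntegral_const]
    _ ≤ _ := setLIntegral_mono' hS h1

end Pool.Agent.LE.CH.H81
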