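import Pool.Agent.LE.StmtsH

/-!
# Squad LCH, row WTC: complete eigenfunctions, an orthogonal vector
-/

set_option autoImplicit false

open MeasureTheory ProbabilityTheory Function Filter

open scoped ENNReal BigOperators InnerProductSpace Topology ComplexConjugate

noncomputable section

namespace Pool.Agent.LE.CH.H81

open Pool.Agent.Anderson Pool.Agent.Loc Pool.Agent.Mob Pool.Agent.Helper54.Bal

variable {d : ℕ}

/-- the pairing of an eigenfunction with the resolvent -/
theorem inner_eig {V : Site d → ℝ} {z : ℂ} (hz : z.im ≠ 0) {E₀ : ℝ} {φ : L2 d}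
    (hφ : IsEigen V E₀ φ) (v : L2 d) : ⟪φ, v⟫_ℂ = ((E₀ : ℂ) - z) * ⟪φ, G V z v⟫_ℂ := by
  have hz' := conj_im_ne hz
  have h1 : ((E₀ : ℂ) - conj z) • φ = ((E₀ : ℂ) - conj z) • φ := rfl
  have h2 : φ = G V (conj z) (((E₀ : ℂ) - conj z) • φ) := by
    apply G_unique hz'
    intro x
    have h3 := hφ x
    rw [lp.coeFn_smul, Pi.smul_apply, smul_eq_mul, sub_mul, sub_mul, ← h3]
    ring
  have h4 := (isRes_G V).adj (conj z) hz' (((E₀ : ℂ) - conj z) • φ) v
  rw [← h2, Complex.conj_conj, inner_smul_left, map_sub, Complex.conj_conj,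
    Complex.conj_ofReal] at h4
  exact h4

/-- the resolvent preserves the orthogonality to the eigenfunctions -/
theorem orth_G {V : Site d → ℝ} {J : Set ℝ} {v : L2 d} (hv : Orth V J v) {z : ℂ}
    (hz : z.im ≠ 0) : Orth V J (G V z v) := by
  intro E₀ φ hE hφ
  have h1 := inner_eig hz hφ v
  rw [hv E₀ φ hE hφ] at h1
  rcases mul_eq_zero.1 h1.symm with h | h
  · exact absurd h (real_sub_ne hz E₀)
  · exact h

theorem wtc : WtcStmt := by
  intro d V a r η E v hη hC hv
  set z : ℂ := zz η E with hz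
  have hzi : z.im ≠ 0 := by
    rw [hz, zz_im]
    exact hη.ne'
  set g : L2 d := G V z v with hg
  have h1 : ∀ x, (v + z • g : L2 d) x = lap g x + (V x : ℂ) * g x := by
    intro x
    have h2 := G_eq (V := V) hzi v x
    rw [← hg] at h2
    rw [lp.coeFn_add, Pi.add_apply, lp.coeFn_smul, Pi.smul_apply, smul_eq_mul, ← h2]
    ring
  have h2 := hC g (v + z • g) h1 (orth_G hv hzi)
  have h3 : v + z • g - (a : ℂ) • g = v + (z - a) • g := by
    rw [sub_smul]
    abel
  rw [h3] at h2
  have h4 : ‖v + (z - a) • g‖ ≤ ‖v‖ + (|E - a| + η) * ‖g‖ := by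
    refine (norm_add_le _ _).trans ?_
    rw [norm_smul]
    have h5 : ‖z - a‖ ≤ |E - a| + η := by
      have h6 : z - a = ((E - a : ℝ) : ℂ) + ((η : ℝ) : ℂ) * Complex.I := by
        rw [hz]
        unfold zz
        push_cast
        ring
      rw [h6]
      refine (norm_add_le _ _).trans ?_
      rw [norm_mul, Complex.norm_I, mul_one, Complex.norm_real, Complex.norm_real,
        Real.norm_eq_abs, Real.norm_eq_abs, abs_of_pos hη]
    gcongr
  have h5 : η * ‖g‖ ≤ ‖v‖ := by
    have h6 := (isRes_G V).norm_le hzi v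
    rw [hz, zz_im, abs_of_pos hη] at h6
    exact h6
  nlinarith

end Pool.Agent.LE.CH.H81
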